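import Mathlib

/-!
# Balanced sets
-/

set_option autoImplicit false

namespace Pool.Agent.Q264.FB

section

variable {V : Type}

open Classical in
/-- the balanced structure of a finite set with weights `w` and degrees `f` -/
def Bal (p : ℕ) (S : Finset V) (w f : V → ℕ) : Prop :=
  ∃ (C : Type) (c : V → C) (fam : C → Finset C), (∀ a, a ∈ fam a) ∧
    (∀ a, ∀ b ∈ fam a, fam b = fam a) ∧
    (∀ a, ∀ b ∈ fam a, ∑ v ∈ S with c v = b, w v = ∑ v ∈ S with c v = a, w v) ∧
    ∀ v ∈ S, ((fam (c v)).card = 1 ∧ p % 3 = 2 ∧ Even (f v)) ∨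
      ((fam (c v)).card = 2 ∧ (p % 3 = 1 ∨ 3 ∣ f v)) ∨
      ((fam (c v)).card = 3 ∧ (p ^ 2 ∣ 2 ^ (p - 1) - 1 ∨ Even (f v))) ∨ (fam (c v)).card = 6

open Classical in
theorem fam_dvd {C : Type} (S : Finset V) (w : V → ℕ) (c : V → C) (fam : C → Finset C)
    (h1 : ∀ a, a ∈ fam a) (h2 : ∀ a, ∀ b ∈ fam a, fam b = fam a)
    (h3 : ∀ a, ∀ b ∈ fam a, ∑ v ∈ S with c v = b, w v = ∑ v ∈ S with c v = a, w v)
    (hw : ∀ v ∈ S, 0 < w v) (d : ℕ)
    (hd : ∀ v ∈ S, d ∣ (fam (c v)).card * ∑ v' ∈ S with c v' = c v, w v') :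
    d ∣ ∑ v ∈ S, w v := by
  set W : C → ℕ := fun a => ∑ v ∈ S with c v = a, w v with hW
  have e1 : ∑ v ∈ S, w v = ∑ a ∈ S.image c, W a :=
    (Finset.sum_fiberwise_of_maps_to (fun v hv => Finset.mem_image_of_mem c hv) w).symm
  have hpos : ∀ v ∈ S, 0 < W (c v) := by
    intro v hv
    rw [hW]
    exact lt_of_lt_of_le (hw v hv) (Finset.single_le_sum (f := w) (fun _ _ => Nat.zero_le _)
      (Finset.mem_filter.2 ⟨hv, rfl⟩))
  have hcl : ∀ v ∈ S, ∀ b ∈ fam (c v), b ∈ S.image c := by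
    intro v hv b hb
    by_contra hcon
    have h4 : W b = 0 := by
      rw [hW]
      apply Finset.sum_eq_zero
      intro v' hv'
      rw [Finset.mem_filter] at hv'
      exact (hcon (by rw [← hv'.2]; exact Finset.mem_image_of_mem c hv'.1)).elim
    have h5 : W b = W (c v) := h3 _ _ hb
    have := hpos v hv
    omega
  rw [e1, ← Finset.sum_fiberwise_of_maps_to (t := (S.image c).image fam)
    (fun a ha => Finset.mem_image_of_mem fam ha) W]
  apply Finset.dvd_sum
  intro 𝓕 h𝓕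
  obtain ⟨a, ha, rfl⟩ := Finset.mem_image.1 h𝓕
  obtain ⟨v, hv, rfl⟩ := Finset.mem_image.1 ha
  have e2 : (S.image c).filter (fun a => fam a = fam (c v)) = fam (c v) := by
    ext b
    rw [Finset.mem_filter]
    constructor
    · rintro ⟨-, h⟩
      rw [← h]
      exact h1 b
    · intro h
      exact ⟨hcl v hv b h, h2 _ _ h⟩
  rw [e2, Finset.sum_congr rfl fun b hb => (h3 _ b hb : W b = W (c v)), Finset.sum_const,
    smul_eq_mul]
  exact hd v hv

/-- every element has a partner -/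
theorem bal_two {p : ℕ} {S : Finset V} {w f : V → ℕ} (h : Bal p S w f) (v : V) (hv : v ∈ S)
    (hf : p % 3 = 1 ∨ Odd (f v)) : ∃ A ⊆ S, ∃ B ⊆ S, Disjoint A B ∧ v ∈ A ∧
      ∑ u ∈ A, w u = ∑ u ∈ B, w u := by
  classical
  obtain ⟨C, c, fam, h1, h2, h3, h4⟩ := h
  have h5 : 1 < (fam (c v)).card := by
    rcases h4 v hv with h | h | h | h
    · rcases hf with h' | h'
      · omega
      · exact absurd h.2.2 (Nat.not_even_iff_odd.2 h')
    · omega
    · omega
    · omega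
  obtain ⟨b, hb, hbc⟩ := Finset.exists_mem_ne h5 (c v)
  refine ⟨S.filter fun u => c u = c v, Finset.filter_subset _ _, S.filter fun u => c u = b,
    Finset.filter_subset _ _, ?_, Finset.mem_filter.2 ⟨hv, rfl⟩, ?_⟩
  · rw [Finset.disjoint_filter]
    intro u _ hu hu'
    exact hbc (hu'.symm.trans hu)
  · have := h3 _ _ hb
    exact this.symm

/-- odd total weight -/
theorem bal_odd {p : ℕ} {S : Finset V} {w f : V → ℕ} (h : Bal p S w f)
    (hw : ∀ v ∈ S, 0 < w v) (hwf : ∀ v ∈ S, f v ∣ w v) (hodd : Odd (∑ v ∈ S, w v)) :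
    p ^ 2 ∣ 2 ^ (p - 1) - 1 ∧ ∃ A ⊆ S, ∃ B ⊆ S, ∃ D ⊆ S, Disjoint A B ∧ Disjoint A D ∧
      Disjoint B D ∧ ∑ u ∈ A, w u = ∑ u ∈ B, w u ∧ ∑ u ∈ B, w u = ∑ u ∈ D, w u ∧
      Odd (∑ u ∈ A, w u) := by
  classical
  obtain ⟨C, c, fam, h1, h2, h3, h4⟩ := h
  have hex : ∃ v ∈ S, ¬ 2 ∣ (fam (c v)).card * ∑ v' ∈ S with c v' = c v, w v' := by
    by_contra hcon
    push Not at hcon
    have h5 := fam_dvd S w c fam h1 h2 h3 hw 2 hcon
    exact (Nat.not_even_iff_odd.2 hodd) (even_iff_two_dvd.2 h5)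
  obtain ⟨v, hv, hnd⟩ := hex
  have hWodd : Odd (∑ v' ∈ S with c v' = c v, w v') := by
    by_contra hcon
    rw [Nat.not_odd_iff_even, even_iff_two_dvd] at hcon
    exact hnd (Dvd.dvd.mul_left hcon _)
  have hodd' : ∃ u ∈ S, c u = c v ∧ Odd (f u) := by
    by_contra hcon
    push Not at hcon
    have : Even (∑ v' ∈ S with c v' = c v, w v') := by
      rw [even_iff_two_dvd]
      apply Finset.dvd_sum
      intro u hu
      rw [Finset.mem_filter] at hu
      have := hcon u hu.1 hu.2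
      rw [Nat.not_odd_iff_even, even_iff_two_dvd] at this
      exact this.trans (hwf u hu.1)
    exact (Nat.not_even_iff_odd.2 hWodd) this
  obtain ⟨u, hu, huv, hfu⟩ := hodd'
  have h5 := h4 u hu
  rw [huv] at h5
  rcases h5 with h | h | h | h
  · exact absurd h.2.2 (Nat.not_even_iff_odd.2 hfu)
  · exact absurd (Dvd.dvd.mul_right (by rw [h.1]) _) hnd
  · refine ⟨h.2.resolve_right (Nat.not_even_iff_odd.2 hfu), ?_⟩
    obtain ⟨a, b, d, hab, had, hbd, he⟩ := Finset.card_eq_three.1 h.1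
    have ha : a ∈ fam (c v) := by rw [he]; simp
    have hb : b ∈ fam (c v) := by rw [he]; simp
    have hd : d ∈ fam (c v) := by rw [he]; simp
    have wa := h3 _ _ ha
    have wb := h3 _ _ hb
    have wd := h3 _ _ hd
    refine ⟨S.filter fun u => c u = a, Finset.filter_subset _ _, S.filter fun u => c u = b,
      Finset.filter_subset _ _, S.filter fun u => c u = d, Finset.filter_subset _ _, ?_, ?_, ?_,
      wa.trans wb.symm, wb.trans wd.symm, ?_⟩
    · rw [Finset.disjoint_filter]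
      intro u _ hu hu'
      exact hab (hu.symm.trans hu')
    · rw [Finset.disjoint_filter]
      intro u _ hu hu'
      exact had (hu.symm.trans hu')
    · rw [Finset.disjoint_filter]
      intro u _ hu hu'
      exact hbd (hu.symm.trans hu')
    · rw [wa]
      exact hWodd
  · exact absurd (Dvd.dvd.mul_right (by rw [h]; norm_num) _) hnd

/-- degrees prime to six -/
theorem bal_six {p : ℕ} {S : Finset V} {w f : V → ℕ} (h : Bal p S w f)
    (hw : ∀ v ∈ S, 0 < w v) (hp : p % 3 = 2) (hf : ∀ v ∈ S, Nat.Coprime (f v) 6) :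
    3 ∣ ∑ v ∈ S, w v ∧ (6 ∣ ∑ v ∈ S, w v ∨ p ^ 2 ∣ 2 ^ (p - 1) - 1) := by
  classical
  obtain ⟨C, c, fam, h1, h2, h3, h4⟩ := h
  have key : ∀ v ∈ S, ((fam (c v)).card = 3 ∧ p ^ 2 ∣ 2 ^ (p - 1) - 1) ∨
      (fam (c v)).card = 6 := by
    intro v hv
    have hev : ¬ Even (f v) := by
      intro h
      have h5 := Nat.dvd_gcd (even_iff_two_dvd.1 h) (by norm_num : 2 ∣ 6)
      rw [hf v hv] at h5
      norm_num at h5
    have h3 : ¬ 3 ∣ f v := by
      intro h
      have h5 := Nat.dvd_gcd h (by norm_num : 3 ∣ 6)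
      rw [hf v hv] at h5
      norm_num at h5
    rcases h4 v hv with h | h | h | h
    · exact absurd h.2.2 hev
    · rcases h.2 with h' | h'
      · omega
      · exact absurd h' h3
    · exact Or.inl ⟨h.1, h.2.resolve_right hev⟩
    · exact Or.inr h
  refine ⟨fam_dvd S w c fam h1 h2 h3 hw 3 fun v hv => ?_, ?_⟩
  · rcases key v hv with h | h
    · rw [h.1]
      exact Dvd.intro _ rfl
    · rw [h]
      exact Dvd.dvd.mul_right (by norm_num) _
  · by_cases hW : p ^ 2 ∣ 2 ^ (p - 1) - 1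
    · exact Or.inr hW
    left
    refine fam_dvd S w c fam h1 h2 h3 hw 6 fun v hv => ?_
    rcases key v hv with h | h
    · exact absurd h.2 hW
    · rw [h]
      exact Dvd.intro _ rfl

end

end Pool.Agent.Q264.FB
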