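import Pool.Agent.Q264.FB.Mul

/-!
# Classes of triples
-/

set_option autoImplicit false

namespace Pool.Agent.Q264.FB

/-- the group of permutations of three letters -/
abbrev G3 : Type := Equiv.Perm (Fin 3)

section defs

variable (p : ℕ) [Fact p.Prime] (F : Type) [Field F] [Algebra (ZMod p) F]

/-- triples of nonzero elements up to scalars and conjugation -/
def triSetoid : Setoid (Fin 3 → F) where
  r x y := ∃ (φ : F ≃ₐ[ZMod p] F) (l : F), l ≠ 0 ∧ ∀ i, y i = l * φ (x i)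
  iseqv := by
    refine ⟨fun x => ⟨AlgEquiv.refl, 1, one_ne_zero, fun i => by simp⟩, ?_, ?_⟩
    · rintro x y ⟨φ, l, hl, h⟩
      refine ⟨φ.symm, (φ.symm l)⁻¹, inv_ne_zero (by simpa using hl), fun i => ?_⟩
      rw [h i, map_mul, AlgEquiv.symm_apply_apply, ← mul_assoc, inv_mul_cancel₀, one_mul]
      simpa using hl
    · rintro x y z ⟨φ, l, hl, h⟩ ⟨φ', l', hl', h'⟩
      refine ⟨φ.trans φ', l' * φ' l, mul_ne_zero hl' (by simpa using hl), fun i => ?_⟩
      rw [h' i, h i, map_mul, AlgEquiv.trans_apply, mul_assoc]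

/-- the classes -/
def Cls : Type := Quotient (triSetoid p F)

variable {p F}

/-- the class of a triple -/
def cls (x : Fin 3 → F) : Cls p F := Quotient.mk (triSetoid p F) x

theorem cls_eq {x y : Fin 3 → F} :
    cls (p := p) x = cls y ↔ ∃ (φ : F ≃ₐ[ZMod p] F) (l : F), l ≠ 0 ∧ ∀ i, y i = l * φ (x i) :=
  Quotient.eq (r := triSetoid p F)

instance : MulAction G3 (Cls p F) where
  smul σ := Quotient.map (fun x i => x (σ⁻¹ i)) (by
    rintro x y ⟨φ, l, hl, h⟩
    exact ⟨φ, l, hl, fun i => h _⟩)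
  one_smul := by
    rintro ⟨x⟩
    rfl
  mul_smul := by
    rintro σ τ ⟨x⟩
    refine congrArg (Quotient.mk (triSetoid p F)) ?_
    funext i
    change x ((σ * τ)⁻¹ i) = x (τ⁻¹ (σ⁻¹ i))
    rw [mul_inv_rev, Equiv.Perm.mul_apply]

theorem smul_cls (σ : G3) (x : Fin 3 → F) :
    σ • cls (p := p) x = cls (fun i => x (σ⁻¹ i)) := rfl

end defs

section weights

variable {p : ℕ} [Fact p.Prime] {F : Type} [Field F] [Algebra (ZMod p) F] [Infinite F]
  {ι : Type} [Fintype ι]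

/-- a normal form of a triple with sum zero -/
def tri (k : Fin 3) (a : F) : Fin 3 → F := fun i => if i = k then -a - 1 else if i = k + 1 then a else 1

theorem fin3 (k i : Fin 3) : i = k ∨ i = k + 1 ∨ i = k + 2 := by
  revert k i
  decide

theorem ne1 (k : Fin 3) : k + 1 ≠ k := by
  revert k
  decide

theorem ne2 (k : Fin 3) : k + 2 ≠ k := by
  revert k
  decide

theorem ne3 (k : Fin 3) : k + 2 ≠ k + 1 := by
  revert k
  decide

theorem cls_tri (k : Fin 3) (x : Fin 3 → F) (hx : x (k + 2) ≠ 0)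
    (hs : x k + x (k + 1) + x (k + 2) = 0) :
    cls (p := p) x = cls (tri k (x (k + 1) / x (k + 2))) := by
  rw [cls_eq]
  refine ⟨AlgEquiv.refl, (x (k + 2))⁻¹, inv_ne_zero hx, fun i => ?_⟩
  rw [AlgEquiv.coe_refl, id_eq]
  unfold tri
  have h1 := ne1 k
  have h2 := ne2 k
  have h3 := ne3 k
  rcases fin3 k i with rfl | rfl | rfl
  · rw [if_pos rfl]
    field_simp
    linear_combination -hs
  · rw [if_neg h1, if_pos rfl, div_eq_inv_mul]
  · rw [if_neg h2, if_neg h3, inv_mul_cancel₀ hx]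

theorem sum_eq (x : Fin 3 → F) (hs : x 0 + x 1 + x 2 = 0) (k : Fin 3) :
    x k + x (k + 1) + x (k + 2) = 0 := by
  fin_cases k
  · exact hs
  · change x 1 + x 2 + x 0 = 0
    rw [← hs]
    ring
  · change x 2 + x 0 + x 1 = 0
    rw [← hs]
    ring

theorem wt_swap (u : ι → Fin 3 → F) (hu : ∀ τ i, u τ i ≠ 0)
    (hs : ∀ τ, u τ 0 + u τ 1 + u τ 2 = 0) (k : Fin 3)
    (h : ∀ t : F, t ≠ 0 → ∏ τ, (u τ (k + 1) + t * u τ (k + 2)) =
      ∏ τ, (u τ (k + 2) + t * u τ (k + 1))) (c : Cls p F) :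
    Nat.card {τ // cls (p := p) (u τ) = Equiv.swap (k + 1) (k + 2) • c} =
      Nat.card {τ // cls (p := p) (u τ) = c} := by
  have h0 := count_eq (fun τ => u τ (k + 1)) (fun τ => u τ (k + 2)) (fun τ => hu τ _)
    (fun τ => hu τ _) h (fun a => cls (p := p) (tri k a)) c
  have e1 : ∀ τ, cls (p := p) (tri k (u τ (k + 1) / u τ (k + 2))) = cls (u τ) := fun τ =>
    (cls_tri k (u τ) (hu τ _) (sum_eq (u τ) (hs τ) k)).symm
  have e2 : ∀ τ, cls (p := p) (tri k (u τ (k + 2) / u τ (k + 1))) =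
      Equiv.swap (k + 1) (k + 2) • cls (p := p) (u τ) := by
    intro τ
    rw [smul_cls, Equiv.swap_inv]
    have h1 := (ne1 k).symm
    have h2 := (ne2 k).symm
    have := cls_tri (p := p) k (fun i => u τ (Equiv.swap (k + 1) (k + 2) i)) (by
        simp only [Equiv.swap_apply_right]
        exact hu τ _) (by
        simp only [Equiv.swap_apply_right, Equiv.swap_apply_left,
          Equiv.swap_apply_of_ne_of_ne h1 h2]
        rw [← sum_eq (u τ) (hs τ) k]
        ring)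
    rw [this]
    simp only [Equiv.swap_apply_right, Equiv.swap_apply_left]
  have e3 : ∀ τ, (cls (p := p) (u τ) = Equiv.swap (k + 1) (k + 2) • c) ↔
      (Equiv.swap (k + 1) (k + 2) • cls (p := p) (u τ) = c) := by
    intro τ
    constructor
    · intro h
      rw [h, smul_smul, Equiv.swap_mul_self, one_smul]
    · intro h
      rw [← h, smul_smul, Equiv.swap_mul_self, one_smul]
  have f1 : Nat.card {τ // cls (p := p) (tri k (u τ (k + 1) / u τ (k + 2))) = c} =
      Nat.card {τ // cls (p := p) (u τ) = c} :=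
    Nat.card_congr (Equiv.subtypeEquivRight fun τ => by rw [e1])
  have f2 : Nat.card {τ // cls (p := p) (tri k (u τ (k + 2) / u τ (k + 1))) = c} =
      Nat.card {τ // cls (p := p) (u τ) = Equiv.swap (k + 1) (k + 2) • c} :=
    Nat.card_congr (Equiv.subtypeEquivRight fun τ => by rw [e2, e3])
  rw [← f2, ← f1]
  exact h0.symm

theorem gen3 (σ : G3) : σ = 1 ∨ σ = Equiv.swap 0 1 ∨ σ = Equiv.swap 1 2 ∨
    σ = Equiv.swap 0 1 * Equiv.swap 1 2 ∨ σ = Equiv.swap 1 2 * Equiv.swap 0 1 ∨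
    σ = Equiv.swap 0 1 * Equiv.swap 1 2 * Equiv.swap 0 1 := by
  revert σ
  decide

theorem wt_all (u : ι → Fin 3 → F) (hu : ∀ τ i, u τ i ≠ 0)
    (hs : ∀ τ, u τ 0 + u τ 1 + u τ 2 = 0)
    (h1 : ∀ t : F, t ≠ 0 → ∏ τ, (u τ 0 + t * u τ 1) = ∏ τ, (u τ 1 + t * u τ 0))
    (h2 : ∀ t : F, t ≠ 0 → ∏ τ, (u τ 1 + t * u τ 2) = ∏ τ, (u τ 2 + t * u τ 1))
    (σ : G3) (c : Cls p F) :
    Nat.card {τ // cls (p := p) (u τ) = σ • c} = Nat.card {τ // cls (p := p) (u τ) = c} := by
  have a1 : ∀ c : Cls p F, Nat.card {τ // cls (p := p) (u τ) = (Equiv.swap 0 1 : G3) • c} =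
      Nat.card {τ // cls (p := p) (u τ) = c} := wt_swap u hu hs 2 h1
  have a2 : ∀ c : Cls p F, Nat.card {τ // cls (p := p) (u τ) = (Equiv.swap 1 2 : G3) • c} =
      Nat.card {τ // cls (p := p) (u τ) = c} := wt_swap u hu hs 0 h2
  rcases gen3 σ with h | h | h | h | h | h
  · rw [h, one_smul]
  · rw [h, a1]
  · rw [h, a2]
  · rw [h, mul_smul, a1, a2]
  · rw [h, mul_smul, a2, a1]
  · rw [h, mul_smul, mul_smul, a1, a2, a1]

end weights

end Pool.Agent.Q264.FB
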