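import Pool.Agent.Q264.FB.Fin

/-!
# Families of classes
-/

set_option autoImplicit false

namespace Pool.Agent.Q264.FB

section

variable {p : ℕ} [Fact p.Prime] {k F : Type} [Field k] [Finite k] [Algebra (ZMod p) k]
  [Field F] [Algebra (ZMod p) F] [IsAlgClosed F] [Algebra.IsAlgebraic (ZMod p) F]

theorem normalF : Normal (ZMod p) F := by
  have : IsAlgClosure (ZMod p) F := ⟨inferInstance, inferInstance⟩
  exact IsAlgClosure.normal (ZMod p) F

/-- a ring homomorphism as an algebra homomorphism -/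
def toAlg (ι : k →+* F) : k →ₐ[ZMod p] F :=
  { ι with
    commutes' := fun r => by
      have : ι.comp (algebraMap (ZMod p) k) = algebraMap (ZMod p) F := Subsingleton.elim _ _
      exact congrArg (fun g : ZMod p →+* F => g r) this }

theorem cls_indep (ι ι' : k →+* F) (x : Fin 3 → k) (hx : ∀ i, x i ≠ 0)
    (hs : x 0 + x 1 + x 2 = 0) :
    cls (p := p) (fun i => ι (x i)) = cls (fun i => ι' (x i)) := by
  have := normalF (p := p) (F := F)
  have h1 : IsConjRoot (ZMod p) (ι' (x 0 / x 1)) (ι (x 0 / x 1)) := by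
    have e1 : minpoly (ZMod p) (toAlg ι (x 0 / x 1)) = minpoly (ZMod p) (x 0 / x 1) :=
      minpoly.algHom_eq (toAlg ι) (toAlg ι).injective _
    have e2 : minpoly (ZMod p) (toAlg ι' (x 0 / x 1)) = minpoly (ZMod p) (x 0 / x 1) :=
      minpoly.algHom_eq (toAlg ι') (toAlg ι').injective _
    exact e2.trans e1.symm
  obtain ⟨φ, hφ⟩ := h1.exists_algEquiv
  have h10 : ι (x 1) ≠ 0 := by simpa using hx 1
  have h10' : ι' (x 1) ≠ 0 := by simpa using hx 1
  have hφ1 : φ (ι (x 1)) ≠ 0 := by simpa using hx 1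
  rw [cls_eq]
  refine ⟨φ, ι' (x 1) / φ (ι (x 1)), div_ne_zero h10' hφ1, ?_⟩
  have key : ι' (x 0) = ι' (x 1) / φ (ι (x 1)) * φ (ι (x 0)) := by
    rw [map_div₀, map_div₀, map_div₀] at hφ
    field_simp
    field_simp at hφ
    linear_combination -hφ
  have key1 : ι' (x 1) = ι' (x 1) / φ (ι (x 1)) * φ (ι (x 1)) := by
    field_simp
  intro i
  rcases (by revert i; decide : i = 0 ∨ i = 1 ∨ i = 2) with rfl | rfl | rfl
  · exact key
  · exact key1
  · have e : x 2 = -x 0 - x 1 := by linear_combination hs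
    rw [e]
    simp only [map_sub, map_neg]
    linear_combination -key - key1

/-- from a class to the residue field -/
theorem hs_of_smul (ι : k →+* F) (x : Fin 3 → k) (hx : ∀ i, x i ≠ 0) (σ : G3)
    (h : σ • cls (p := p) (fun i => ι (x i)) = cls (fun i => ι (x i))) : Hs p x σ := by
  rw [smul_cls, eq_comm, cls_eq] at h
  obtain ⟨φ, l, hl, h⟩ := h
  let _ : Algebra k F := ι.toAlgebra
  have hst : IsScalarTower (ZMod p) k F := IsScalarTower.of_algebraMap_eq fun r => by
    have : ι.comp (algebraMap (ZMod p) k) = algebraMap (ZMod p) F := Subsingleton.elim _ _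
    exact (congrArg (fun g : ZMod p →+* F => g r) this).symm
  have hθ : ∀ b : k, ι (φ.restrictNormal k b) = φ (ι b) := fun b =>
    φ.restrictNormal_commutes k b
  refine ⟨φ.restrictNormal k, x (σ⁻¹ 0) / φ.restrictNormal k (x 0),
    div_ne_zero (hx _) (by simpa using hx 0), fun i => ?_⟩
  apply ι.injective
  have h0 := h 0
  have hi := h i
  have hφ0 : φ (ι (x 0)) ≠ 0 := by simpa using hx 0
  rw [map_mul, map_div₀, hθ, hθ, h0, hi]
  field_simp

/-- the class of `(1, ω, ω ^ 2)` for `p = 2` modulo three -/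
theorem om_class (hp2 : p % 3 = 2) (ι : k →+* F) (x : Fin 3 → k) (hx : ∀ i, x i ≠ 0) (m : k)
    (hm : m ^ 2 + m + 1 = 0) (hm1 : x 1 = m * x 0) (hm2 : x 2 = m ^ 2 * x 0) :
    (Equiv.swap 1 2 : G3) • cls (p := p) (fun i => ι (x i)) = cls (fun i => ι (x i)) := by
  rw [smul_cls, eq_comm, cls_eq]
  have hm3 : m ^ 3 = 1 := by linear_combination (m - 1) * hm
  have hmp : m ^ p = m ^ 2 := by
    obtain ⟨q, hq⟩ : ∃ q, p = 3 * q + 2 := ⟨p / 3, by omega⟩
    rw [hq, pow_add, pow_mul, hm3, one_pow, one_mul]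
  have hx0 : ι (x 0) ≠ 0 := by simpa using hx 0
  refine ⟨FiniteField.frobeniusAlgEquivOfAlgebraic (ZMod p) F, ι (x 0) / ι (x 0) ^ p,
    div_ne_zero hx0 (pow_ne_zero _ hx0), fun i => ?_⟩
  have hφ : ∀ b : F, FiniteField.frobeniusAlgEquivOfAlgebraic (ZMod p) F b = b ^ p := by
    intro b
    rw [FiniteField.coe_frobeniusAlgEquivOfAlgebraic, ZMod.card]
  rw [hφ]
  have v0 : (Equiv.swap 1 2 : G3)⁻¹ 0 = 0 := by decide
  have v1 : (Equiv.swap 1 2 : G3)⁻¹ 1 = 2 := by decide
  have v2 : (Equiv.swap 1 2 : G3)⁻¹ 2 = 1 := by decide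
  have hp0 : ι (x 0) ^ p ≠ 0 := pow_ne_zero _ hx0
  rcases (by revert i; decide : i = 0 ∨ i = 1 ∨ i = 2) with rfl | rfl | rfl
  · rw [v0]
    field_simp
  · rw [v1, hm2, hm1, map_mul, map_mul, mul_pow, ← map_pow ι m p, hmp]
    field_simp
  · have e : (m ^ 2) ^ p = m := by
      rw [← pow_mul, mul_comm, pow_mul, hmp]
      linear_combination m * hm3
    rw [v2, hm2, hm1, map_mul, map_mul, mul_pow, ← map_pow ι (m ^ 2) p, e]
    field_simp

/-- the family of a class -/
noncomputable def fam (c : Cls p F) : Finset (Cls p F) :=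
  open Classical in (Finset.univ : Finset G3).image fun σ => σ • c

theorem mem_fam {c d : Cls p F} : d ∈ fam c ↔ ∃ σ : G3, σ • c = d := by
  unfold fam
  simp

theorem fam_card (c : Cls p F) :
    (fam c).card * Nat.card (MulAction.stabilizer G3 c) = 6 := by
  classical
  have h1 := Nat.card_congr (MulAction.orbitProdStabilizerEquivGroup G3 c)
  rw [Nat.card_prod] at h1
  have h2 : MulAction.orbit G3 c = (↑(fam c) : Set (Cls p F)) := by
    ext d
    rw [Finset.mem_coe, mem_fam]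
    exact Iff.rfl
  have h3 : Nat.card (MulAction.orbit G3 c) = (fam c).card := by
    rw [h2, Nat.card_coe_set_eq, Set.ncard_coe_finset]
  have h4 : Nat.card G3 = 6 := by
    rw [Nat.card_eq_fintype_card]
    decide
  rw [h3, h4] at h1
  exact h1

theorem fam_self (c : Cls p F) : c ∈ fam c := mem_fam.2 ⟨1, one_smul _ _⟩

theorem fam_eq {c d : Cls p F} (h : d ∈ fam c) : fam d = fam c := by
  obtain ⟨σ, rfl⟩ := mem_fam.1 h
  ext e
  rw [mem_fam, mem_fam]
  constructor
  · rintro ⟨τ, rfl⟩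
    exact ⟨τ * σ, mul_smul _ _ _⟩
  · rintro ⟨τ, rfl⟩
    refine ⟨τ * σ⁻¹, ?_⟩
    rw [smul_smul, inv_mul_cancel_right]

/-- the alternatives for the size of a family -/
theorem fam_cases (h5 : 5 ≤ p) (ι : k →+* F) (x : Fin 3 → k) (hx : ∀ i, x i ≠ 0)
    (hs : x 0 + x 1 + x 2 = 0) (f : ℕ) (hf : Module.finrank (ZMod p) k = f)
    (hcard : Nat.card k = p ^ f) :
    ((fam (cls (p := p) fun i => ι (x i))).card = 1 ∧ p % 3 = 2 ∧ Even f) ∨
    ((fam (cls (p := p) fun i => ι (x i))).card = 2 ∧ (p % 3 = 1 ∨ 3 ∣ f)) ∨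
    ((fam (cls (p := p) fun i => ι (x i))).card = 3 ∧
      (Even f ∨ ∃ i j : Fin 3, i ≠ j ∧ x i = x j)) ∨
    (fam (cls (p := p) fun i => ι (x i))).card = 6 := by
  classical
  set c := cls (p := p) fun i => ι (x i) with hc
  have hfc := fam_card c
  have hpp : p.Prime := Fact.out
  have hp3 : p % 3 = 1 ∨ p % 3 = 2 := by
    have : ¬ 3 ∣ p := by
      intro hd
      have := (Nat.prime_dvd_prime_iff_eq Nat.prime_three hpp).1 hd
      omega
    omega
  have hH : ∀ σ : G3, σ ∈ MulAction.stabilizer G3 c → Hs p x σ := fun σ hσ =>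
    hs_of_smul ι x hx σ hσ
  set n := Nat.card (MulAction.stabilizer G3 c) with hn
  have hn6 : n ∣ 6 := Dvd.intro_left _ hfc
  have hn0 : n ∈ ({1, 2, 3, 6} : Finset ℕ) := by
    have : n ∈ Nat.divisors 6 := Nat.mem_divisors.2 ⟨hn6, by norm_num⟩
    have e : Nat.divisors 6 = {1, 2, 3, 6} := by decide
    rwa [e] at this
  have hord : ∀ q : ℕ, q.Prime → q ∣ n → ∃ σ ∈ MulAction.stabilizer G3 c, orderOf σ = q := by
    intro q hq hqn
    have : Fact q.Prime := ⟨hq⟩
    obtain ⟨σ, hσ⟩ := exists_prime_orderOf_dvd_card' q hqn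
    exact ⟨σ, σ.2, by rw [← hσ, Subgroup.orderOf_coe]⟩
  have hdvd : ∀ σ ∈ MulAction.stabilizer G3 c, orderOf σ ∣ n := by
    intro σ hσ
    have := orderOf_dvd_natCard (⟨σ, hσ⟩ : MulAction.stabilizer G3 c)
    rwa [← Subgroup.orderOf_coe] at this
  have hsw : orderOf (Equiv.swap 1 2 : G3) = 2 :=
    orderOf_eq_prime (by decide) (by decide)
  simp only [Finset.mem_insert, Finset.mem_singleton] at hn0
  rcases hn0 with h | h | h | h
  · right; right; right
    rw [h] at hfc
    omega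
  · -- a transposition
    right; right; left
    rw [h] at hfc
    refine ⟨by omega, ?_⟩
    by_cases hev : Even f
    · exact Or.inl hev
    right
    obtain ⟨σ, hσ, hσ2⟩ := hord 2 Nat.prime_two (by rw [h])
    have hcas : σ = Equiv.swap 0 1 ∨ σ = Equiv.swap 1 2 ∨ σ = Equiv.swap 0 2 := by
      have h1 : σ ^ 2 = 1 := by
        have := pow_orderOf_eq_one σ
        rwa [hσ2] at this
      have h2 : σ ≠ 1 := by
        rintro rfl
        rw [orderOf_one] at hσ2
        norm_num at hσ2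
      clear hσ hσ2
      revert σ
      decide
    have hodd : Odd (Module.finrank (ZMod p) k) := by
      rw [hf]
      exact Nat.not_even_iff_odd.1 hev
    have hHσ := hH σ hσ
    rcases hcas with rfl | rfl | rfl
    · exact ⟨0, 1, by decide, hs_swap hx (m := 2) (by decide) (by decide) hHσ hodd⟩
    · exact ⟨1, 2, by decide, hs_swap hx (m := 0) (by decide) (by decide) hHσ hodd⟩
    · exact ⟨0, 2, by decide, hs_swap hx (m := 1) (by decide) (by decide) hHσ hodd⟩
  · -- a three cycle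
    right; left
    rw [h] at hfc
    refine ⟨by omega, ?_⟩
    rcases hp3 with hp | hp
    · exact Or.inl hp
    by_cases h3 : 3 ∣ f
    · exact Or.inr h3
    exfalso
    obtain ⟨σ, hσ, hσ3⟩ := hord 3 Nat.prime_three (by rw [h])
    obtain ⟨m, hm, hm1, hm2⟩ := hs_cycle hx hs hσ3 (hH σ hσ) (by rwa [hf])
    have h6 : (Equiv.swap 1 2 : G3) ∈ MulAction.stabilizer G3 c :=
      om_class hp ι x hx m hm hm1 hm2
    have h7 := hdvd _ h6
    rw [hsw, h] at h7
    norm_num at h7
  · -- everything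
    left
    have hfc' : (fam c).card * 6 = 6 := by
      rw [h] at hfc
      exact hfc
    refine ⟨by omega, ?_⟩
    have htop : MulAction.stabilizer G3 c = ⊤ := by
      apply Subgroup.eq_top_of_card_eq
      rw [← hn, h, Nat.card_eq_fintype_card]
      decide
    have hall : ∀ σ : G3, Hs p x σ := fun σ => hH σ (by rw [htop]; trivial)
    obtain ⟨m, hm, hm1, hm2⟩ := hs_all hx hs (hall _) (hall _)
    have h8 := om_card h5 m hm
    rw [hcard] at h8
    rcases hp3 with hp | hp
    · exact (om_swap h5 hp hx (hall _) m hm hm1 hm2).elim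
    · exact ⟨hp, even_of_card hp f h8⟩

end

end Pool.Agent.Q264.FB
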