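import Pool.Agent.Q264.FB.Cls
import Pool.Agent.Y546.WQ.Cas2

/-!
# Triples over finite fields
-/

set_option autoImplicit false

namespace Pool.Agent.Q264.FB

section

variable {p : ℕ} [Fact p.Prime] {k : Type} [Field k] [Finite k] [Algebra (ZMod p) k]

/-- the triple is fixed by a permutation up to scalars and conjugation -/
def Hs (p : ℕ) [Fact p.Prime] {k : Type} [Field k] [Algebra (ZMod p) k] (x : Fin 3 → k)
    (σ : G3) : Prop :=
  ∃ (θ : k ≃ₐ[ZMod p] k) (l : k), l ≠ 0 ∧ ∀ i, x (σ⁻¹ i) = l * θ (x i)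

theorem fix_of_coprime (θ : k ≃ₐ[ZMod p] k) (n : ℕ)
    (hn : Nat.Coprime n (Module.finrank (ZMod p) k)) (r : k) (h : (θ ^ n) r = r) : θ r = r := by
  have h1 : orderOf θ ∣ Module.finrank (ZMod p) k := by
    rw [← IsGalois.card_aut_eq_finrank]
    exact orderOf_dvd_natCard θ
  obtain ⟨m, hm⟩ := exists_pow_eq_self_of_coprime (Nat.Coprime.coprime_dvd_right h1 hn)
  have h2 : ∀ j : ℕ, ((θ ^ n) ^ j) r = r := by
    intro j
    induction j with
    | zero => simp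
    | succ j ih => rw [pow_succ, AlgEquiv.mul_apply, h, ih]
  have h3 := h2 m
  rwa [hm] at h3

theorem hs_ratio {x : Fin 3 → k} {σ : G3} {θ : k ≃ₐ[ZMod p] k} {l : k} (hl : l ≠ 0)
    (h : ∀ i, x (σ⁻¹ i) = l * θ (x i)) (i j : Fin 3) :
    θ (x i / x j) = x (σ⁻¹ i) / x (σ⁻¹ j) := by
  rw [map_div₀, h i, h j, mul_div_mul_left _ _ hl]

/-- transpositions -/
theorem hs_swap {x : Fin 3 → k} (hx : ∀ i, x i ≠ 0) {i j m : Fin 3} (hmi : m ≠ i)
    (hmj : m ≠ j) (h : Hs p x (Equiv.swap i j)) (hf : Odd (Module.finrank (ZMod p) k)) :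
    x i = x j := by
  obtain ⟨θ, l, hl, h⟩ := h
  have h1 := hs_ratio hl h i m
  have h2 := hs_ratio hl h j m
  rw [Equiv.swap_inv, Equiv.swap_apply_left, Equiv.swap_apply_of_ne_of_ne hmi hmj] at h1
  rw [Equiv.swap_inv, Equiv.swap_apply_right, Equiv.swap_apply_of_ne_of_ne hmi hmj] at h2
  have h3 : (θ ^ 2) (x i / x m) = x i / x m := by
    rw [pow_two, AlgEquiv.mul_apply, h1, h2]
  have h4 := fix_of_coprime θ 2 (Nat.coprime_two_left.2 hf) _ h3
  rw [h4] at h1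
  exact (div_left_inj' (hx m)).1 h1

theorem om_key {k : Type} [Field k] {a b c : k} (ha : a ≠ 0) (hb : b ≠ 0) (hc : c ≠ 0)
    (hs' : a + b + c = 0) (hr : b / c = a / b) :
    ∃ m : k, m ^ 2 + m + 1 = 0 ∧ b = m * a ∧ c = m ^ 2 * a := by
  rw [div_eq_div_iff hc hb] at hr
  refine ⟨b / a, ?_, by field_simp, ?_⟩
  · field_simp
    linear_combination hr + a * hs'
  · field_simp
    linear_combination -hr

/-- three cycles -/
theorem hs_cycle {x : Fin 3 → k} (hx : ∀ i, x i ≠ 0) (hs : x 0 + x 1 + x 2 = 0) {σ : G3}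
    (hσ : orderOf σ = 3) (h : Hs p x σ) (hf : ¬ 3 ∣ Module.finrank (ZMod p) k) :
    ∃ m : k, m ^ 2 + m + 1 = 0 ∧ x 1 = m * x 0 ∧ x 2 = m ^ 2 * x 0 := by
  obtain ⟨θ, l, hl, h⟩ := h
  have h3 : ∀ i j : Fin 3, (θ ^ 3) (x i / x j) = x i / x j := by
    intro i j
    have e : (θ ^ 3) (x i / x j) = θ (θ (θ (x i / x j))) := by
      rw [pow_succ, pow_two, AlgEquiv.mul_apply, AlgEquiv.mul_apply]
    have e2 : ∀ i : Fin 3, σ⁻¹ (σ⁻¹ (σ⁻¹ i)) = i := by
      intro i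
      have e3 : σ⁻¹ * σ⁻¹ * σ⁻¹ = 1 := by
        have := pow_orderOf_eq_one σ
        rw [hσ] at this
        rw [← pow_two, ← pow_succ, inv_pow, this, inv_one]
      have := congrArg (fun τ : G3 => τ i) e3
      simpa using this
    rw [e, hs_ratio hl h, hs_ratio hl h, hs_ratio hl h, e2, e2]
  have h4 : ∀ i j : Fin 3, x (σ⁻¹ i) / x (σ⁻¹ j) = x i / x j := by
    intro i j
    rw [← hs_ratio hl h]
    exact fix_of_coprime θ 3 ((Nat.Prime.coprime_iff_not_dvd Nat.prime_three).2 hf) _ (h3 i j)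
  have hc : σ⁻¹ = Equiv.swap 0 1 * Equiv.swap 1 2 ∨ σ⁻¹ = Equiv.swap 1 2 * Equiv.swap 0 1 := by
    have h5 : σ ^ 3 = 1 := by
      have := pow_orderOf_eq_one σ
      rwa [hσ] at this
    have h6 : σ ≠ 1 := by
      rintro rfl
      rw [orderOf_one] at hσ
      norm_num at hσ
    clear h3 h4 hσ h
    revert σ
    decide
  rcases hc with hc | hc
  · -- 0 → 1 → 2 → 0
    have v0 : (σ⁻¹ : G3) 0 = 1 := by rw [hc]; decide
    have v1 : (σ⁻¹ : G3) 1 = 2 := by rw [hc]; decide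
    have v2 : (σ⁻¹ : G3) 2 = 0 := by rw [hc]; decide
    have h5 := h4 0 1
    rw [v0, v1] at h5
    exact om_key (hx 0) (hx 1) (hx 2) hs h5
  · -- 0 → 2 → 1 → 0
    have v0 : (σ⁻¹ : G3) 0 = 2 := by rw [hc]; decide
    have v1 : (σ⁻¹ : G3) 1 = 0 := by rw [hc]; decide
    have v2 : (σ⁻¹ : G3) 2 = 1 := by rw [hc]; decide
    have h5 := h4 1 2
    rw [v1, v2] at h5
    apply om_key (hx 0) (hx 1) (hx 2) hs
    rw [← h5]

/-- all permutations -/
theorem hs_all {x : Fin 3 → k} (hx : ∀ i, x i ≠ 0) (hs : x 0 + x 1 + x 2 = 0)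
    (h1 : Hs p x (Equiv.swap 0 1)) (h2 : Hs p x (Equiv.swap 1 2)) :
    ∃ m : k, m ^ 2 + m + 1 = 0 ∧ x 1 = m * x 0 ∧ x 2 = m ^ 2 * x 0 := by
  obtain ⟨θ, l, hl, h⟩ := h1
  obtain ⟨θ', l', hl', h'⟩ := h2
  have hcomm : θ * θ' = θ' * θ :=
    (IsCyclic.isMulCommutative (α := (k ≃ₐ[ZMod p] k))).is_comm.comm θ θ'
  have v0 : (Equiv.swap 0 1 : G3)⁻¹ 0 = 1 := by decide
  have v1 : (Equiv.swap 0 1 : G3)⁻¹ 1 = 0 := by decide
  have v2 : (Equiv.swap 0 1 : G3)⁻¹ 2 = 2 := by decide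
  have w0 : (Equiv.swap 1 2 : G3)⁻¹ 0 = 0 := by decide
  have w1 : (Equiv.swap 1 2 : G3)⁻¹ 1 = 2 := by decide
  have w2 : (Equiv.swap 1 2 : G3)⁻¹ 2 = 1 := by decide
  have a1 := hs_ratio hl h 2 0
  have a2 := hs_ratio hl' h' 2 1
  have a3 := hs_ratio hl' h' 2 0
  have a4 := hs_ratio hl h 1 0
  rw [v2, v0] at a1
  rw [w2, w1] at a2
  rw [w2, w0] at a3
  rw [v1, v0] at a4
  have e := congrArg (fun τ : k ≃ₐ[ZMod p] k => τ (x 2 / x 0)) hcomm
  simp only [AlgEquiv.mul_apply] at e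
  rw [a1, a2, a3, a4] at e
  exact om_key (hx 0) (hx 1) (hx 2) hs e.symm

theorem three_ne (h5 : 5 ≤ p) {k : Type} [Field k] [Algebra (ZMod p) k] : (3 : k) ≠ 0 := by
  have hch : CharP k p := charP_of_injective_algebraMap (algebraMap (ZMod p) k).injective p
  have h : ((3 : ℕ) : k) ≠ 0 := by
    rw [Ne, CharP.cast_eq_zero_iff k p]
    intro hd
    have := Nat.le_of_dvd (by norm_num) hd
    omega
  exact_mod_cast h

/-- a cube root of unity in the prime field is fixed -/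
theorem om_fix (h5 : 5 ≤ p) (hp1 : p % 3 = 1) {k : Type} [Field k] [Algebra (ZMod p) k]
    (m : k) (hm : m ^ 2 + m + 1 = 0) (θ : k ≃ₐ[ZMod p] k) : θ m = m := by
  have hpp : p.Prime := Fact.out
  have h4 : 3 ∣ Fintype.card (ZMod p)ˣ := by
    rw [ZMod.card_units]
    have := hpp.pos
    omega
  obtain ⟨g, hg⟩ := exists_prime_orderOf_dvd_card 3 h4
  have hg3 : (g : ZMod p) ^ 3 = 1 := by
    have : g ^ 3 = 1 := by rw [← hg]; exact pow_orderOf_eq_one g
    have := congrArg (fun u : (ZMod p)ˣ => (u : ZMod p)) this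
    simpa using this
  have hg1 : (g : ZMod p) ≠ 1 := by
    intro h5
    have : g = 1 := Units.ext h5
    rw [this, orderOf_one] at hg
    norm_num at hg
  have hgg : (g : ZMod p) ^ 2 + g + 1 = 0 := by
    have h6 : ((g : ZMod p) - 1) * ((g : ZMod p) ^ 2 + g + 1) = 0 := by
      linear_combination hg3
    exact (mul_eq_zero.1 h6).resolve_left (sub_ne_zero.2 hg1)
  have h7 : (algebraMap (ZMod p) k g) ^ 2 + algebraMap (ZMod p) k g + 1 = 0 := by
    have := congrArg (algebraMap (ZMod p) k) hgg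
    simpa using this
  have h8 : (m - algebraMap (ZMod p) k g) * (m - (-1 - algebraMap (ZMod p) k g)) = 0 := by
    linear_combination hm - h7
  rcases mul_eq_zero.1 h8 with h9 | h9
  · rw [sub_eq_zero.1 h9, AlgEquiv.commutes]
  · rw [sub_eq_zero.1 h9, map_sub, map_neg, map_one, AlgEquiv.commutes]

theorem om_swap (h5 : 5 ≤ p) (hp1 : p % 3 = 1) {x : Fin 3 → k} (hx : ∀ i, x i ≠ 0)
    (h : Hs p x (Equiv.swap 0 1)) (m : k) (hm : m ^ 2 + m + 1 = 0) (hm1 : x 1 = m * x 0)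
    (hm2 : x 2 = m ^ 2 * x 0) : False := by
  obtain ⟨θ, l, hl, h⟩ := h
  have v0 : (Equiv.swap 0 1 : G3)⁻¹ 0 = 1 := by decide
  have v1 : (Equiv.swap 0 1 : G3)⁻¹ 1 = 0 := by decide
  have a := hs_ratio hl h 1 0
  rw [v1, v0, hm1, mul_div_assoc, div_self (hx 0), mul_one, om_fix h5 hp1 m hm] at a
  have hm0 : m ≠ 0 := by
    rintro rfl
    simp at hm
  have hx0 := hx 0
  have h6 : m ^ 2 = 1 := by
    have e : x 0 / (m * x 0) = m⁻¹ := by
      field_simp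
    rw [e] at a
    field_simp at a
    exact a
  have h7 : (3 : k) = 0 := by
    have h8 : m = -2 := by linear_combination hm - h6
    rw [h8] at h6
    linear_combination h6
  exact three_ne h5 h7

/-- the field of a cube root of unity -/
theorem om_card (h5 : 5 ≤ p) (m : k) (hm : m ^ 2 + m + 1 = 0) :
    Nat.card k % 3 = 1 := Pool.Agent.Y546.WQ.three_card m hm (three_ne h5)

theorem even_of_card (hp2 : p % 3 = 2) (f : ℕ) (h : p ^ f % 3 = 1) : Even f := by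
  by_contra hodd
  rw [Nat.not_even_iff_odd] at hodd
  obtain ⟨j, rfl⟩ := hodd
  rw [pow_succ, pow_mul, Nat.mul_mod, Nat.pow_mod, Nat.pow_mod p 2 3, hp2] at h
  norm_num at h

end

end Pool.Agent.Q264.FB
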