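import Pool.Agent.Y546.WQ.Cas2
import Pool.Agent.Y290.WQ.NORM

/-!
# Local degrees and embeddings
-/

set_option autoImplicit false

namespace Pool.Agent.Q264.FB

open NumberField IsDedekindDomain Polynomial Pool.Agent.Y546.WQ

section ideals

variable {K : Type} [Field K] [NumberField K] {p : ℕ}

/-- an ideal prime to `p` has norm prime to `p` -/
theorem norm_prime_to (hp : p.Prime) (J : Ideal (𝓞 K)) (hJ0 : J ≠ ⊥)
    (hJ : ∀ P : Ideal (𝓞 K), P.IsPrime → ((p : ℕ) : 𝓞 K) ∈ P → ¬ J ≤ P) :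
    ¬ p ∣ Ideal.absNorm J := by
  classical
  intro hd
  have hcop : J ⊔ Ideal.span {((p : ℕ) : 𝓞 K)} = ⊤ := by
    by_contra h
    obtain ⟨M, hM, hle⟩ := Ideal.exists_le_maximal _ h
    exact hJ M hM.isPrime (hle (Ideal.mem_sup_right (Ideal.mem_span_singleton_self _)))
      (le_sup_left.trans hle)
  have h1 : (1 : 𝓞 K) ∈ J ⊔ Ideal.span {((p : ℕ) : 𝓞 K)} := by
    rw [hcop]
    exact Submodule.mem_top
  obtain ⟨j, hj, b, hb, hjb⟩ := Submodule.mem_sup.1 h1
  obtain ⟨c, rfl⟩ := Ideal.mem_span_singleton'.1 hb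
  have hfin : Finite (𝓞 K ⧸ J) := Ideal.finiteQuotientOfFreeOfNeBot J hJ0
  have hcard : Ideal.absNorm J = Nat.card (𝓞 K ⧸ J) := by
    rw [Ideal.absNorm_apply, Submodule.cardQuot_apply]
  rw [hcard] at hd
  have : Fact p.Prime := ⟨hp⟩
  obtain ⟨x, hx⟩ := exists_prime_addOrderOf_dvd_card' p hd
  have hx0 : x ≠ 0 := by
    rintro rfl
    rw [addOrderOf_zero] at hx
    exact hp.ne_one hx.symm
  apply hx0
  have hpx : (p : ℕ) • x = 0 := by
    rw [← hx]
    exact addOrderOf_nsmul_eq_zero x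
  have e1 : (Ideal.Quotient.mk J) (c * ((p : ℕ) : 𝓞 K)) = 1 := by
    rw [← map_one (Ideal.Quotient.mk J), ← hjb, map_add, Ideal.Quotient.eq_zero_iff_mem.2 hj,
      zero_add]
  calc x = 1 * x := (one_mul x).symm
    _ = (Ideal.Quotient.mk J) c * ((p : ℕ) • x) := by
      rw [← e1, map_mul, map_natCast, nsmul_eq_mul, mul_assoc]
    _ = 0 := by rw [hpx, mul_zero]

/-- exact power -/
theorem exact_pow (hp : p.Prime) (v : HeightOneSpectrum (𝓞 K))
    (hv : ((p : ℕ) : 𝓞 K) ∈ v.asIdeal) :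
    ((p : ℕ) : 𝓞 K) ∈ v.asIdeal ^ (v.asIdeal.ramificationIdx ℤ) ∧
      ((p : ℕ) : 𝓞 K) ∉ v.asIdeal ^ (v.asIdeal.ramificationIdx ℤ + 1) := by
  have hfact : Fact p.Prime := ⟨hp⟩
  obtain ⟨n, -, h1, h2⟩ := exists_ram v.asIdeal v.isPrime hv
  have hlies : v.asIdeal.LiesOver (Ideal.span {(p : ℤ)}) := by
    rw [Ideal.liesOver_span_iff v.isPrime.ne_top (Nat.prime_iff_prime_int.1 hp)]
    simpa using hv
  have hp0 : Ideal.span {(p : ℤ)} ≠ ⊥ := by
    rw [Ne, Ideal.span_singleton_eq_bot]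
    exact_mod_cast hp.ne_zero
  have hmap : ∀ k : ℕ, Ideal.map (algebraMap ℤ (𝓞 K)) (Ideal.span {(p : ℤ)}) ≤ v.asIdeal ^ k ↔
      ((p : ℕ) : 𝓞 K) ∈ v.asIdeal ^ k := by
    intro k
    rw [Ideal.map_span, Set.image_singleton, Ideal.span_singleton_le_iff_mem]
    simp
  have e : v.asIdeal.ramificationIdx ℤ = n := by
    rw [← Ideal.ramificationIdx'_eq_ramificationIdx (Ideal.span {(p : ℤ)}) v.asIdeal hp0]
    refine Ideal.ramificationIdx'_spec ((hmap n).2 h1) ?_
    rw [hmap]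
    exact h2
  rw [e]
  exact ⟨h1, h2⟩

theorem absNorm_eq (hp : p.Prime) (v : HeightOneSpectrum (𝓞 K))
    (hv : ((p : ℕ) : 𝓞 K) ∈ v.asIdeal) :
    Ideal.absNorm v.asIdeal = p ^ (v.asIdeal.inertiaDeg ℤ) := by
  have hlies : v.asIdeal.LiesOver (Ideal.span {(p : ℤ)}) := by
    rw [Ideal.liesOver_span_iff v.isPrime.ne_top (Nat.prime_iff_prime_int.1 hp)]
    simpa using hv
  have h1 : (Ideal.span {(p : ℤ)}).IsMaximal :=
    PrincipalIdealRing.isMaximal_of_irreducible (Nat.prime_iff_prime_int.1 hp).irreducible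
  have h2 : v.asIdeal.IsMaximal := v.isPrime.isMaximal v.ne_bot
  rw [Ideal.absNorm_eq_pow_inertiaDeg' v.asIdeal hp, Ideal.inertiaDeg'_eq_inertiaDeg]

/-- an element which is a generator of `p` at `v` and a unit at the other primes above `p` -/
theorem exists_elt (hp : p.Prime) (v : HeightOneSpectrum (𝓞 K))
    (hv : ((p : ℕ) : 𝓞 K) ∈ v.asIdeal) :
    ∃ α : 𝓞 K, α ≠ 0 ∧ (∀ P : Ideal (𝓞 K), P.IsPrime → ((p : ℕ) : 𝓞 K) ∈ P →
        P ≠ v.asIdeal → α ∉ P) ∧
      (∃ a b : 𝓞 K, a ∉ v.asIdeal ∧ b ∉ v.asIdeal ∧ a * α = (p : ℕ) * b) ∧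
      ∃ j : ℕ, ¬ p ∣ j ∧ (Algebra.norm ℤ α).natAbs =
        p ^ (v.asIdeal.ramificationIdx ℤ * v.asIdeal.inertiaDeg ℤ) * j := by
  classical
  set e := v.asIdeal.ramificationIdx ℤ with he
  obtain ⟨h1, h2⟩ := exact_pow hp v hv
  rw [← he] at h1 h2
  have hp0 : ((p : ℕ) : 𝓞 K) ≠ 0 := by
    rw [Ne, Nat.cast_eq_zero]
    exact hp.ne_zero
  have hPne : ∀ P : Ideal (𝓞 K), ((p : ℕ) : 𝓞 K) ∈ P → P ≠ ⊥ := by
    rintro P hP rfl
    exact hp0 (Ideal.mem_bot.1 hP)
  obtain ⟨T, hT⟩ := finite_primes (K := K) p hp.ne_zero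
  obtain ⟨α, hα⟩ := IsDedekindDomain.exists_forall_sub_mem_ideal (s := T)
    (fun P : HeightOneSpectrum (𝓞 K) => P.asIdeal) (fun _ => e + 1)
    (fun P _ => P.prime) (fun P _ P' _ h h' => h (HeightOneSpectrum.ext h'))
    (fun P' => if (P' : HeightOneSpectrum (𝓞 K)) = v then ((p : ℕ) : 𝓞 K) else 1)
  have hαv : α - ((p : ℕ) : 𝓞 K) ∈ v.asIdeal ^ (e + 1) := by
    have := hα v (hT v hv)
    simpa using this
  have hαo : ∀ P : Ideal (𝓞 K), P.IsPrime → ((p : ℕ) : 𝓞 K) ∈ P → P ≠ v.asIdeal → α ∉ P := by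
    intro P hP hpP hne hmem
    have h3 := hα ⟨P, hP, hPne P hpP⟩ (hT _ hpP)
    have h4 : (⟨P, hP, hPne P hpP⟩ : HeightOneSpectrum (𝓞 K)) ≠ v := by
      intro h
      exact hne (congrArg HeightOneSpectrum.asIdeal h)
    rw [if_neg h4] at h3
    have h5 : α - 1 ∈ P := Ideal.pow_le_self (Nat.succ_ne_zero e) h3
    apply one_notMem P hP
    have : (1 : 𝓞 K) = α - (α - 1) := by ring
    rw [this]
    exact P.sub_mem hmem h5
  have hα1 : α ∈ v.asIdeal ^ e := by
    have : α = (α - ((p : ℕ) : 𝓞 K)) + ((p : ℕ) : 𝓞 K) := by ring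
    rw [this]
    exact Ideal.add_mem _ (Ideal.pow_le_pow_right (Nat.le_succ e) hαv) h1
  have hα2 : α ∉ v.asIdeal ^ (e + 1) := by
    intro h
    apply h2
    have : ((p : ℕ) : 𝓞 K) = α - (α - ((p : ℕ) : 𝓞 K)) := by ring
    rw [this]
    exact Ideal.sub_mem _ h hαv
  have hα0 : α ≠ 0 := by
    rintro rfl
    exact hα2 (zero_mem _)
  refine ⟨α, hα0, hαo, ?_, ?_⟩
  · obtain ⟨I, hI⟩ : v.asIdeal ^ e ∣ Ideal.span {((p : ℕ) : 𝓞 K)} :=
      Ideal.dvd_span_singleton.2 h1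
    have hIv : ¬ I ≤ v.asIdeal := by
      intro h
      apply h2
      have h3 : Ideal.span {((p : ℕ) : 𝓞 K)} ≤ v.asIdeal ^ (e + 1) := by
        rw [hI, pow_succ]
        exact Ideal.mul_mono_right h
      exact h3 (Ideal.mem_span_singleton_self _)
    obtain ⟨a, haI, hav⟩ := SetLike.not_le_iff_exists.1 hIv
    have h4 : a * α ∈ Ideal.span {((p : ℕ) : 𝓞 K)} := by
      rw [hI, mul_comm a α]
      exact Ideal.mul_mem_mul hα1 haI
    obtain ⟨b, hb⟩ := Ideal.mem_span_singleton'.1 h4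
    refine ⟨a, b, hav, ?_, by rw [← hb, mul_comm]⟩
    intro hbv
    have h5 : a * α ∈ v.asIdeal ^ (e + 1) := by
      rw [← hb, pow_succ, mul_comm b]
      exact Ideal.mul_mem_mul h1 hbv
    rcases Ideal.IsPrime.mul_mem_pow v.asIdeal h5 with h | h
    · exact hav h
    · exact hα2 h
  · obtain ⟨J, hJ⟩ : v.asIdeal ^ e ∣ Ideal.span {α} := Ideal.dvd_span_singleton.2 hα1
    have hJ0 : J ≠ ⊥ := by
      rintro rfl
      rw [Ideal.mul_bot, Ideal.span_singleton_eq_bot] at hJ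
      exact hα0 hJ
    refine ⟨Ideal.absNorm J, norm_prime_to hp J hJ0 ?_, ?_⟩
    · intro P hP hpP hle
      by_cases hPv : P = v.asIdeal
      · subst hPv
        apply hα2
        have h3 : Ideal.span {α} ≤ v.asIdeal ^ (e + 1) := by
          rw [hJ, pow_succ]
          exact Ideal.mul_mono_right hle
        exact h3 (Ideal.mem_span_singleton_self _)
      · apply hαo P hP hpP hPv
        apply hle
        have h3 : α ∈ Ideal.span {α} := Ideal.mem_span_singleton_self _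
        rw [hJ] at h3
        exact Ideal.mul_le_right h3
    · rw [← Ideal.absNorm_span_singleton, hJ, map_mul, map_pow, absNorm_eq hp v hv, ← pow_mul,
        mul_comm (v.asIdeal.inertiaDeg ℤ)]

end ideals

section count

variable {K N : Type} [Field K] [NumberField K] [Field N] [NumberField N] {p : ℕ}

/-- the number of embeddings inducing a given prime above `p` is the local degree -/
theorem card_above (hp : p.Prime) (hcard : Nat.card (K →+* N) = Module.finrank ℚ K)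
    (Q : Ideal (𝓞 N)) (hQ : Q.IsPrime) (hQp : ((p : ℕ) : 𝓞 N) ∈ Q) (v : HeightOneSpectrum (𝓞 K))
    (hv : ((p : ℕ) : 𝓞 K) ∈ v.asIdeal) :
    Nat.card {τ : K →+* N // Q.comap (RingOfIntegers.mapRingHom τ) = v.asIdeal} =
      v.asIdeal.ramificationIdx ℤ * v.asIdeal.inertiaDeg ℤ := by
  classical
  obtain ⟨α, hα0, hαo, ⟨a, b, ha, hb, hab⟩, j, hj, hnorm⟩ := exists_elt hp v hv
  have hQ0 : Q ≠ ⊥ := by
    rintro rfl
    rw [Ideal.mem_bot, Nat.cast_eq_zero] at hQp
    exact hp.ne_zero hQp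
  let q : HeightOneSpectrum (𝓞 N) := ⟨Q, hQ, hQ0⟩
  obtain ⟨f, -, h0, -, -, hf⟩ := Pool.Agent.Y290.WQ.mainNORM K α 0
  have hf := hf N hcard
  -- the norm as a product
  have hprod : ((Algebra.norm ℤ α : ℤ) : 𝓞 N) =
      ∏ τ : K →+* N, RingOfIntegers.mapRingHom τ α := by
    have h1 := congrArg (Polynomial.eval 0) hf
    rw [eval_map, eval₂_at_zero, h0] at h1
    rw [← eq_intCast (Int.castRingHom (𝓞 N)), h1]
    unfold nrmP
    rw [eval_prod]
    refine Finset.prod_congr rfl fun τ _ => ?_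
    simp
  have hval := congrArg q.intValuation hprod
  rw [map_prod] at hval
  have hone : ∀ w : 𝓞 N, w ∉ Q → q.intValuation w = 1 := by
    intro w hw
    exact HeightOneSpectrum.intValuation_eq_one_iff.2 hw
  -- the factors
  have hfac : ∀ τ : K →+* N, q.intValuation (RingOfIntegers.mapRingHom τ α) =
      if Q.comap (RingOfIntegers.mapRingHom τ) = v.asIdeal then q.intValuation ((p : ℕ) : 𝓞 N)
        else 1 := by
    intro τ
    split_ifs with h
    · have h1 := congrArg (RingOfIntegers.mapRingHom τ) hab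
      rw [map_mul, map_mul, map_natCast] at h1
      have h2 := congrArg q.intValuation h1
      rw [map_mul, map_mul, hone _ (fun h3 => ha (by rw [← h, Ideal.mem_comap]; exact h3)),
        hone (RingOfIntegers.mapRingHom τ b) (fun h3 => hb (by rw [← h, Ideal.mem_comap]; exact h3)),
        one_mul, mul_one] at h2
      exact h2
    · apply hone
      intro h3
      exact hαo _ (hQ.comap _) (by rw [Ideal.mem_comap, map_natCast]; exact hQp) h
        (by rw [Ideal.mem_comap]; exact h3)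
  rw [Finset.prod_congr rfl fun τ _ => hfac τ, Finset.prod_ite, Finset.prod_const,
    Finset.prod_const_one, mul_one] at hval
  -- the norm
  have hnval : q.intValuation ((Algebra.norm ℤ α : ℤ) : 𝓞 N) =
      q.intValuation ((p : ℕ) : 𝓞 N) ^
        (v.asIdeal.ramificationIdx ℤ * v.asIdeal.inertiaDeg ℤ) := by
    have hjQ : ((j : ℕ) : 𝓞 N) ∉ Q := by
      have := int_notMem Q hQ p hp hQp (j : ℤ) (by exact_mod_cast hj)
      exact_mod_cast this
    rcases Int.natAbs_eq (Algebra.norm ℤ α) with h | h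
    · rw [h, hnorm]
      push_cast
      rw [map_mul, map_pow, hone _ hjQ, mul_one]
    · rw [h, hnorm]
      push_cast
      rw [Valuation.map_neg, map_mul, map_pow, hone _ hjQ, mul_one]
  rw [hnval] at hval
  have hp1 : q.intValuation ((p : ℕ) : 𝓞 N) < 1 := (q.intValuation_lt_one_iff_mem _).2 hQp
  have hp0 : q.intValuation ((p : ℕ) : 𝓞 N) ≠ 0 := by
    apply q.intValuation_ne_zero
    rw [Ne, Nat.cast_eq_zero]
    exact hp.ne_zero
  have hinj := pow_right_injective₀ (zero_lt_iff.2 hp0) hp1.ne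
  have h4 := hinj hval
  rw [h4, Nat.card_eq_fintype_card, Fintype.card_subtype]

end count

end Pool.Agent.Q264.FB
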