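import Pool.Agent.Q264.FB.Fam
import Pool.Agent.Q264.FB.Bal
import Pool.Agent.Q264.FB.Loc
import Pool.Agent.Y546.WQ.All

/-!
# The primes above `p` are balanced if the first case fails
-/

set_option autoImplicit false

namespace Pool.Agent.Q264.FB

open NumberField IsDedekindDomain Polynomial Pool.Agent.Y546.WQ

section

variable {p : ℕ} [Fact p.Prime] {K N F : Type} [Field K] [NumberField K] [Field N] [NumberField N]
  [Field F]

theorem fin3a (i : Fin 3) : i = 0 ∨ i = 1 ∨ i = 2 := by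
  revert i
  decide

/-- the residues of the conjugates of a solution -/
noncomputable def resid (ψ : 𝓞 N →+* F) (X Y Z : 𝓞 K) (τ : K →+* N) : Fin 3 → F :=
  ![ψ (RingOfIntegers.mapRingHom τ X), ψ (RingOfIntegers.mapRingHom τ Y),
    ψ (RingOfIntegers.mapRingHom τ Z)]

/-- the residues at a prime above `p` -/
theorem local_data (hmp : Module.finrank ℚ K < p) (hp2 : p ≠ 2) (Q : Ideal (𝓞 N))
    (ψ : 𝓞 N →+* F)
    (hψ : ∀ w : 𝓞 N, ψ w = 0 ↔ w ∈ Q) {X Y Z : 𝓞 K} (hs : Sol p K X Y Z)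
    (v : HeightOneSpectrum (𝓞 K)) (hv : ((p : ℕ) : 𝓞 K) ∈ v.asIdeal) :
    ∃ (k : Type) (_ : Field k) (_ : Finite k) (_ : Algebra (ZMod p) k) (x : Fin 3 → k),
      (∀ i, x i ≠ 0) ∧ x 0 + x 1 + x 2 = 0 ∧
      Module.finrank (ZMod p) k = v.asIdeal.inertiaDeg ℤ ∧
      Nat.card k = p ^ v.asIdeal.inertiaDeg ℤ ∧
      (∀ i j, i ≠ j → x i = x j → p ^ 2 ∣ 2 ^ (p - 1) - 1) ∧
      ∀ τ : K →+* N, Q.comap (RingOfIntegers.mapRingHom τ) = v.asIdeal →
        ∃ ι : k →+* F, ∀ i, resid ψ X Y Z τ i = ι (x i) := by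
  classical
  have hpp : p.Prime := Fact.out
  have hPm : v.asIdeal.IsMaximal := v.isPrime.isMaximal v.ne_bot
  let _ : Field (𝓞 K ⧸ v.asIdeal) := Ideal.Quotient.field v.asIdeal
  have hfin : Finite (𝓞 K ⧸ v.asIdeal) := Ideal.finiteQuotientOfFreeOfNeBot v.asIdeal v.ne_bot
  have hchP : CharP (𝓞 K ⧸ v.asIdeal) p := charP_quot v.asIdeal v.isPrime p hpp hv
  let _ : Algebra (ZMod p) (𝓞 K ⧸ v.asIdeal) := ZMod.algebra _ p
  have hcard : Nat.card (𝓞 K ⧸ v.asIdeal) = p ^ v.asIdeal.inertiaDeg ℤ := by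
    rw [← absNorm_eq hpp v hv, Ideal.absNorm_apply, Submodule.cardQuot_apply]
  have hcard2 : Nat.card (𝓞 K ⧸ v.asIdeal) =
      p ^ Module.finrank (ZMod p) (𝓞 K ⧸ v.asIdeal) := by
    have := Module.natCard_eq_pow_finrank (K := ZMod p) (V := 𝓞 K ⧸ v.asIdeal)
    rwa [Nat.card_zmod] at this
  obtain ⟨c1, c2, c3⟩ := hs.cp v.asIdeal v.isPrime hv
  have hnz : ∀ w : 𝓞 K, w ∉ v.asIdeal → Ideal.Quotient.mk v.asIdeal w ≠ 0 := fun w hw h =>
    hw (Ideal.Quotient.eq_zero_iff_mem.1 h)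
  refine ⟨𝓞 K ⧸ v.asIdeal, inferInstance, hfin, inferInstance,
    ![Ideal.Quotient.mk v.asIdeal X, Ideal.Quotient.mk v.asIdeal Y,
      Ideal.Quotient.mk v.asIdeal Z], ?_, ?_, ?_, hcard, ?_, ?_⟩
  · intro i
    rcases fin3a i with rfl | rfl | rfl
    · exact hnz X c1
    · exact hnz Y c2
    · exact hnz Z c3
  · change Ideal.Quotient.mk v.asIdeal X + Ideal.Quotient.mk v.asIdeal Y +
      Ideal.Quotient.mk v.asIdeal Z = 0
    rw [← map_add, ← map_add]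
    exact Ideal.Quotient.eq_zero_iff_mem.2 (lin_p hpp v.asIdeal v.isPrime hv hs.eq)
  · apply Nat.pow_right_injective hpp.two_le
    exact hcard2.symm.trans hcard
  · intro i j hij hxy
    by_contra hW
    have w01 : ∀ X Y Z : 𝓞 K, Sol p K X Y Z →
        Ideal.Quotient.mk v.asIdeal X = Ideal.Quotient.mk v.asIdeal Y → False := fun X Y Z hs h =>
      wief hmp hp2 hW v.asIdeal v.isPrime hv hs (Ideal.Quotient.eq.1 h)
    have h01 := w01 X Y Z hs
    have h12 := w01 Y Z X hs.rot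
    have h20 := w01 Z X Y hs.rot.rot
    rcases fin3a i with rfl | rfl | rfl <;>
    rcases fin3a j with rfl | rfl | rfl
    · exact hij rfl
    · exact h01 hxy
    · exact h20 hxy.symm
    · exact h01 hxy.symm
    · exact hij rfl
    · exact h12 hxy
    · exact h20 hxy
    · exact h12 hxy.symm
    · exact hij rfl
  · intro τ hτ
    have hker : ∀ a : 𝓞 K, a ∈ v.asIdeal → (ψ.comp (RingOfIntegers.mapRingHom τ)) a = 0 := by
      intro a ha
      rw [RingHom.comp_apply, hψ]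
      rw [← hτ] at ha
      exact ha
    refine ⟨Ideal.Quotient.lift v.asIdeal (ψ.comp (RingOfIntegers.mapRingHom τ)) hker, fun i => ?_⟩
    rcases fin3a i with rfl | rfl | rfl
    · rfl
    · rfl
    · rfl

/-- residues in an algebraic closure of the prime field -/
theorem exists_resid (N : Type) [Field N] [NumberField N] :
    ∃ (Q : Ideal (𝓞 N)) (F : Type) (_ : Field F) (_ : Algebra (ZMod p) F) (ψ : 𝓞 N →+* F),
      Q.IsPrime ∧ ((p : ℕ) : 𝓞 N) ∈ Q ∧ IsAlgClosed F ∧ Algebra.IsAlgebraic (ZMod p) F ∧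
      ∀ w : 𝓞 N, ψ w = 0 ↔ w ∈ Q := by
  have hpp : p.Prime := Fact.out
  obtain ⟨Q, hQ, hQp⟩ := exists_above (K := N) p hpp
  have hQ0 : Q ≠ ⊥ := by
    rintro rfl
    rw [Ideal.mem_bot, Nat.cast_eq_zero] at hQp
    exact hpp.ne_zero hQp
  have hQm : Q.IsMaximal := hQ.isMaximal hQ0
  let _ : Field (𝓞 N ⧸ Q) := Ideal.Quotient.field Q
  have hch : CharP (𝓞 N ⧸ Q) p := charP_quot Q hQ p hpp hQp
  let _ : Algebra (ZMod p) (𝓞 N ⧸ Q) := ZMod.algebra _ p
  have hfinQ : Finite (𝓞 N ⧸ Q) := Ideal.finiteQuotientOfFreeOfNeBot Q hQ0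
  have halg1 : Algebra.IsAlgebraic (ZMod p) (𝓞 N ⧸ Q) := Algebra.IsAlgebraic.of_finite _ _
  refine ⟨Q, AlgebraicClosure (𝓞 N ⧸ Q), inferInstance, inferInstance,
    (algebraMap (𝓞 N ⧸ Q) (AlgebraicClosure (𝓞 N ⧸ Q))).comp (Ideal.Quotient.mk Q), hQ, hQp,
    inferInstance, Algebra.IsAlgebraic.trans (ZMod p) (𝓞 N ⧸ Q) _, fun w => ?_⟩
  constructor
  · intro h
    have h1 : algebraMap (𝓞 N ⧸ Q) (AlgebraicClosure (𝓞 N ⧸ Q)) (Ideal.Quotient.mk Q w) = 0 := h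
    rw [map_eq_zero_iff _ (algebraMap (𝓞 N ⧸ Q) (AlgebraicClosure (𝓞 N ⧸ Q))).injective] at h1
    exact Ideal.Quotient.eq_zero_iff_mem.1 h1
  · intro h
    change algebraMap (𝓞 N ⧸ Q) (AlgebraicClosure (𝓞 N ⧸ Q)) (Ideal.Quotient.mk Q w) = 0
    rw [Ideal.Quotient.eq_zero_iff_mem.2 h, map_zero]

open Classical in
theorem core [Algebra (ZMod p) F] [IsAlgClosed F] [Algebra.IsAlgebraic (ZMod p) F]
    (Q : Ideal (𝓞 N)) (hQ : Q.IsPrime) (hQp : ((p : ℕ) : 𝓞 N) ∈ Q) (ψ : 𝓞 N →+* F)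
    (hψ : ∀ w : 𝓞 N, ψ w = 0 ↔ w ∈ Q)
    (hcard : Nat.card (K →+* N) = Module.finrank ℚ K) (hpal : PalK p K)
    (h5 : 5 ≤ p) (hmp : Module.finrank ℚ K < p) {X Y Z : 𝓞 K} (hs : Sol p K X Y Z)
    (S : Finset (HeightOneSpectrum (𝓞 K)))
    (hS : ∀ v, v ∈ S ↔ ((p : ℕ) : 𝓞 K) ∈ v.asIdeal) :
    Bal p S (fun v => v.asIdeal.ramificationIdx ℤ * v.asIdeal.inertiaDeg ℤ)
        (fun v => v.asIdeal.inertiaDeg ℤ) ∧
      ∑ v ∈ S, v.asIdeal.ramificationIdx ℤ * v.asIdeal.inertiaDeg ℤ = Module.finrank ℚ K := by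
  have hpp : p.Prime := Fact.out
  have hchF : CharP F p := charP_of_injective_algebraMap (algebraMap (ZMod p) F).injective p
  set u : (K →+* N) → Fin 3 → F := resid ψ X Y Z with hu
  -- the prime below
  have hbelow : ∀ τ : K →+* N, ((p : ℕ) : 𝓞 K) ∈ Q.comap (RingOfIntegers.mapRingHom τ) := by
    intro τ
    rw [Ideal.mem_comap, map_natCast]
    exact hQp
  have hbot : ∀ τ : K →+* N, Q.comap (RingOfIntegers.mapRingHom τ) ≠ ⊥ := by
    intro τ h
    have := hbelow τ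
    rw [h, Ideal.mem_bot, Nat.cast_eq_zero] at this
    exact hpp.ne_zero this
  let g : (K →+* N) → HeightOneSpectrum (𝓞 K) := fun τ =>
    ⟨Q.comap (RingOfIntegers.mapRingHom τ), hQ.comap _, hbot τ⟩
  have hgS : ∀ τ, g τ ∈ S := fun τ => (hS _).2 (hbelow τ)
  have hg : ∀ τ v, g τ = v ↔ Q.comap (RingOfIntegers.mapRingHom τ) = v.asIdeal := by
    intro τ v
    constructor
    · rintro rfl
      rfl
    · intro h
      exact HeightOneSpectrum.ext h
  have hcnt : ∀ v ∈ S, (Finset.univ.filter fun τ => g τ = v).card =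
      v.asIdeal.ramificationIdx ℤ * v.asIdeal.inertiaDeg ℤ := by
    intro v hv
    rw [← card_above hpp hcard Q hQ hQp v ((hS v).1 hv), Nat.card_eq_fintype_card,
      Fintype.card_subtype]
    congr 1
    ext τ
    rw [Finset.mem_filter, Finset.mem_filter, hg]
  -- the residues
  have hu0 : ∀ τ i, u τ i ≠ 0 := by
    intro τ i
    obtain ⟨c1, c2, c3⟩ := hs.cp _ (hQ.comap (RingOfIntegers.mapRingHom τ)) (hbelow τ)
    rcases fin3a i with rfl | rfl | rfl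
    · exact fun h => c1 ((hψ _).1 h)
    · exact fun h => c2 ((hψ _).1 h)
    · exact fun h => c3 ((hψ _).1 h)
  have hus : ∀ τ, u τ 0 + u τ 1 + u τ 2 = 0 := by
    intro τ
    change ψ (RingOfIntegers.mapRingHom τ X) + ψ (RingOfIntegers.mapRingHom τ Y) +
      ψ (RingOfIntegers.mapRingHom τ Z) = 0
    rw [← map_add, ← map_add, hψ, ← map_add, ← map_add]
    exact lin_p hpp (Q.comap (RingOfIntegers.mapRingHom τ)) (hQ.comap _) (hbelow τ) hs.eq
  have hwt := wt_all (p := p) u hu0 hus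
    (fun t ht => pal_eval Pool.Agent.Y290.WQ.mainNORM hcard hpal ψ hs t ht)
    (fun t ht => pal_eval Pool.Agent.Y290.WQ.mainNORM hcard hpal ψ hs.rot t ht)
  -- the local data
  have factA : ∀ τ τ' : K →+* N, g τ = g τ' → cls (p := p) (u τ) = cls (u τ') := by
    intro τ τ' h
    obtain ⟨k, i1, i2, i3, x, x0, xs, -, -, -, hι⟩ :=
      local_data hmp (by omega) Q ψ hψ hs (g τ) ((hS _).1 (hgS τ))
    obtain ⟨ι, hι1⟩ := hι τ rfl
    obtain ⟨ι', hι2⟩ := hι τ' ((hg τ' _).1 h.symm)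
    have e1 : u τ = fun i => ι (x i) := funext hι1
    have e2 : u τ' = fun i => ι' (x i) := funext hι2
    rw [e1, e2]
    exact cls_indep ι ι' x x0 xs
  have factB : ∀ τ : K →+* N,
      ((fam (cls (p := p) (u τ))).card = 1 ∧ p % 3 = 2 ∧ Even ((g τ).asIdeal.inertiaDeg ℤ)) ∨
      ((fam (cls (p := p) (u τ))).card = 2 ∧ (p % 3 = 1 ∨ 3 ∣ (g τ).asIdeal.inertiaDeg ℤ)) ∨
      ((fam (cls (p := p) (u τ))).card = 3 ∧
        (p ^ 2 ∣ 2 ^ (p - 1) - 1 ∨ Even ((g τ).asIdeal.inertiaDeg ℤ))) ∨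
      (fam (cls (p := p) (u τ))).card = 6 := by
    intro τ
    obtain ⟨k, i1, i2, i3, x, x0, xs, xf, xc, xw, hι⟩ :=
      local_data hmp (by omega) Q ψ hψ hs (g τ) ((hS _).1 (hgS τ))
    obtain ⟨ι, hι1⟩ := hι τ rfl
    have e1 : u τ = fun i => ι (x i) := funext hι1
    rw [e1]
    rcases fam_cases h5 ι x x0 xs _ xf xc with h | h | h | h
    · exact Or.inl h
    · exact Or.inr (Or.inl h)
    · refine Or.inr (Or.inr (Or.inl ⟨h.1, ?_⟩))
      rcases h.2 with h' | ⟨i, j, hij, hx⟩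
      · exact Or.inr h'
      · exact Or.inl (xw i j hij hx)
    · exact Or.inr (Or.inr (Or.inr h))
  let c : HeightOneSpectrum (𝓞 K) → Cls p F := fun v =>
    if h : ∃ τ, g τ = v then cls (u h.choose) else cls (fun _ => 1)
  have hc : ∀ τ, c (g τ) = cls (u τ) := by
    intro τ
    have h : ∃ τ', g τ' = g τ := ⟨τ, rfl⟩
    have e : c (g τ) = cls (u h.choose) := dif_pos h
    rw [e]
    exact factA _ _ h.choose_spec
  have hex : ∀ v ∈ S, ∃ τ, g τ = v := by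
    intro v hv
    have h1 := hcnt v hv
    have hlies : v.asIdeal.LiesOver (Ideal.span {(p : ℤ)}) := by
      rw [Ideal.liesOver_span_iff v.isPrime.ne_top (Nat.prime_iff_prime_int.1 hpp)]
      simpa using (hS v).1 hv
    have h2 : 0 < v.asIdeal.ramificationIdx ℤ * v.asIdeal.inertiaDeg ℤ :=
      Nat.mul_pos (Ideal.ramificationIdx_pos _ _) (Ideal.inertiaDeg_pos _ _)
    rw [← h1] at h2
    obtain ⟨τ, hτ⟩ := Finset.card_pos.1 h2
    exact ⟨τ, (Finset.mem_filter.1 hτ).2⟩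
  -- the weights
  have hsum : ∀ b : Cls p F, ∑ v ∈ S with c v = b,
      v.asIdeal.ramificationIdx ℤ * v.asIdeal.inertiaDeg ℤ =
        Nat.card {τ // cls (p := p) (u τ) = b} := by
    intro b
    rw [Nat.card_eq_fintype_card, Fintype.card_subtype,
      Finset.card_eq_sum_card_fiberwise (f := g) (t := S.filter fun v => c v = b)]
    · refine Finset.sum_congr rfl fun v hv => ?_
      rw [Finset.mem_filter] at hv
      rw [← hcnt v hv.1, Finset.filter_filter]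
      congr 1
      ext τ
      rw [Finset.mem_filter, Finset.mem_filter]
      constructor
      · rintro ⟨h1, h2⟩
        refine ⟨h1, ?_, h2⟩
        rw [← hc, h2, hv.2]
      · rintro ⟨h1, -, h2⟩
        exact ⟨h1, h2⟩
    · intro τ hτ
      rw [Finset.mem_coe, Finset.mem_filter] at hτ
      rw [Finset.mem_coe, Finset.mem_filter]
      exact ⟨hgS τ, by rw [hc]; exact hτ.2⟩
  refine ⟨⟨Cls p F, c, fam, fam_self, fun a b hb => fam_eq hb, ?_, ?_⟩, ?_⟩
  · intro a b hb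
    obtain ⟨σ, rfl⟩ := mem_fam.1 hb
    exact (hsum _).trans ((hwt σ a).trans (hsum a).symm)
  · intro v hv
    obtain ⟨τ, rfl⟩ := hex v hv
    rw [hc]
    exact factB τ
  · rw [← hcard, Nat.card_eq_fintype_card, ← Finset.card_univ,
      Finset.card_eq_sum_card_fiberwise (f := g) (t := S) fun τ _ => hgS τ]
    exact (Finset.sum_congr rfl fun v hv => hcnt v hv).symm

/-- all together -/
theorem main (hp : p.Prime)
    (hreg : (2 * Module.finrank ℚ K + 3 ≤ p ∧ ∀ k ∈ irr p, k + 2 * Module.finrank ℚ K + 1 < p) ∨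
      Module.finrank ℚ K * (((irr p).card + 1) * ((irr p).card + 2)) + 3 ≤ p)
    {x y z : K} (hx : x ≠ 0) (hy : y ≠ 0) (hz : z ≠ 0) (h : x ^ p + y ^ p + z ^ p = 0)
    (S : Finset (HeightOneSpectrum (𝓞 K)))
    (hS : ∀ v, v ∈ S ↔ ((p : ℕ) : 𝓞 K) ∈ v.asIdeal)
    (hv : ∀ v ∈ S, v.valuation K x = v.valuation K y ∧ v.valuation K y = v.valuation K z) :
    Bal p S (fun v => v.asIdeal.ramificationIdx ℤ * v.asIdeal.inertiaDeg ℤ)
        (fun v => v.asIdeal.inertiaDeg ℤ) ∧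
      ∑ v ∈ S, v.asIdeal.ramificationIdx ℤ * v.asIdeal.inertiaDeg ℤ = Module.finrank ℚ K := by
  have hm := Module.finrank_pos (R := ℚ) (M := K)
  have h5 : 2 * Module.finrank ℚ K + 3 ≤ p := by
    rcases hreg with h | h
    · exact h.1
    · have e : 2 ≤ ((irr p).card + 1) * ((irr p).card + 2) := by nlinarith [(irr p).card.zero_le]
      have := Nat.mul_le_mul_left (Module.finrank ℚ K) e
      omega
  obtain ⟨E, _, _, ⟨c⟩⟩ := Y978.WQ.main p (by omega)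
  obtain ⟨N, _, _, i, hcard, hD⟩ := Y258.WQ.mainDOWNG p E c K (by omega)
  have hD' : Dn p E N i := hD
  obtain ⟨X, Y, Z, hX, hY0, hZ, hXYZ, hcp, -⟩ := prep hp hx hy hz h
    fun v hv' => hv v ((hS v).2 hv')
  have hs : Sol p K X Y Z := ⟨hX, hY0, hZ, hXYZ, hcp⟩
  have hpal : PalK p K := palK aUNITA Y261.WQ.main Y919.WQ.mainLAMA Y290.WQ.mainNORM
    (Y510.WQ.mainPOLBA Y275.WQ.mainCOREA) (Y590.WQ.mainPOLE Y780.WQ.mainPOLE1 Y286.WQ.mainPOLE2)
    Y61.WQ.mainBER c i hD' hcard hreg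
  obtain ⟨Q, F, _, _, ψ, hQ, hQp, _, _, hψ⟩ := exists_resid (p := p) N
  exact core Q hQ hQp ψ hψ hcard hpal (by omega) (by omega) hs S hS

end

end Pool.Agent.Q264.FB
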