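import Mathlib

/-!
# Multisets of ratios
-/

set_option autoImplicit false

namespace Pool.Agent.Q264.FB

open Polynomial

theorem ratio_eq {F : Type*} [Field F] [Infinite F] {ι : Type*} [Fintype ι] (x y : ι → F)
    (hx : ∀ i, x i ≠ 0) (hy : ∀ i, y i ≠ 0)
    (h : ∀ t : F, t ≠ 0 → ∏ i, (x i + t * y i) = ∏ i, (y i + t * x i)) :
    Multiset.map (fun i => x i / y i) Finset.univ.val =
      Multiset.map (fun i => y i / x i) Finset.univ.val := by
  classical
  have key : ∀ u v : ι → F, (∀ i, v i ≠ 0) →
      (∏ i, (C (v i) * (X - C (-(u i / v i))))).roots =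
        Multiset.map (fun i => -(u i / v i)) Finset.univ.val := by
    intro u v hv
    rw [Finset.prod_mul_distrib, ← map_prod,
      roots_C_mul _ (Finset.prod_ne_zero_iff.2 fun i _ => hv i)]
    have h1 : (∏ i, (X - C (-(u i / v i)))) =
        (Multiset.map (fun a => X - C a) (Multiset.map (fun i => -(u i / v i))
          Finset.univ.val)).prod := by
      rw [Multiset.map_map]
      rfl
    rw [h1, roots_multiset_prod_X_sub_C]
  have hPQ : (∏ i, (C (y i) * (X - C (-(x i / y i))))) =
      ∏ i, (C (x i) * (X - C (-(y i / x i)))) := by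
    apply Polynomial.eq_of_infinite_eval_eq
    have hinf : Set.Infinite {t : F | t ≠ 0} := by
      have := (Set.finite_singleton (0 : F)).infinite_compl
      exact this
    refine hinf.mono fun t ht => ?_
    rw [Set.mem_setOf_eq] at ht ⊢
    rw [eval_prod, eval_prod]
    have e1 : ∀ i, eval t (C (y i) * (X - C (-(x i / y i)))) = x i + t * y i := by
      intro i
      simp only [eval_mul, eval_C, eval_sub, eval_X]
      have := hy i
      field_simp
      ring
    have e2 : ∀ i, eval t (C (x i) * (X - C (-(y i / x i)))) = y i + t * x i := by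
      intro i
      simp only [eval_mul, eval_C, eval_sub, eval_X]
      have := hx i
      field_simp
      ring
    rw [Finset.prod_congr rfl fun i _ => e1 i, Finset.prod_congr rfl fun i _ => e2 i]
    exact h t ht
  have h2 := congrArg roots hPQ
  rw [key x y hy, key y x hx] at h2
  have h3 := congrArg (Multiset.map fun a : F => -a) h2
  rw [Multiset.map_map, Multiset.map_map] at h3
  simpa [Function.comp_def] using h3

/-- counting with a function of the ratio -/
theorem count_eq {F C : Type*} [Field F] [Infinite F] {ι : Type*} [Fintype ι] (x y : ι → F)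
    (hx : ∀ i, x i ≠ 0) (hy : ∀ i, y i ≠ 0)
    (h : ∀ t : F, t ≠ 0 → ∏ i, (x i + t * y i) = ∏ i, (y i + t * x i)) (Φ : F → C) (c : C) :
    Nat.card {i // Φ (x i / y i) = c} = Nat.card {i // Φ (y i / x i) = c} := by
  classical
  have h1 := congrArg (Multiset.map Φ) (ratio_eq x y hx hy h)
  have h2 := congrArg (Multiset.countP (· = c)) h1
  rw [Multiset.map_map, Multiset.map_map, Multiset.countP_map, Multiset.countP_map] at h2
  rw [Nat.card_eq_fintype_card, Nat.card_eq_fintype_card, Fintype.card_subtype,
    Fintype.card_subtype]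
  exact h2

end Pool.Agent.Q264.FB
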